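import Pool.Agent.Helper2.SV.Defs
import Pool.Agent.Helper2.SV.GoalsP
import Pool.Agent.Helper2.SV.GoalsC

/-!
# Packet SV-MFC: minimal claw-free counterexamples satisfy `MF`
-/

set_option autoImplicit false

namespace Pool.Agent.Helper22.SV

open Pool.Agent.Helper2.SV

/-- Goal MFC. -/
theorem goalMFC (hCOB : G_COB) (hMC0 : G_MC0) (hODDC : G_ODDC) (hAH : G_AH)
    (hJOIN : G_JOIN) : G_MFC := by
  intro V _ G w hce hcf
  have h0 : MF0 G w := hMC0 V G w hce
  refine { toMF0 := h0, join := hJOIN V G w h0 hcf, odd := ?_ }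
  intro u
  have hnot : ∀ C1 C2 : Set V, Clq G C1 → Clq G C2 → ¬ Mn G u ⊆ C1 ∪ C2 :=
    fun C1 C2 h1 h2 h => h0.nperf u ((hCOB V G C1 C2 h1 h2).mono h)
  obtain ⟨n, hn3, hodd, c, hcm, hinj, hadj⟩ := hODDC V G (Mn G u) hnot
  rcases Nat.lt_or_ge n 7 with h7 | h7
  · have h35 : n = 3 ∨ n = 5 := by
      obtain ⟨k, rfl⟩ := hodd
      omega
    rcases h35 with rfl | rfl
    · left
      have h01 : (0 : ZMod 3) ≠ 1 := by decide
      have h02 : (0 : ZMod 3) ≠ 2 := by decide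
      have h12 : (1 : ZMod 3) ≠ 2 := by decide
      refine ⟨c 0, c 1, c 2, hcm 0, hcm 1, hcm 2, fun h => h01 (hinj h), fun h => h02 (hinj h),
        fun h => h12 (hinj h), fun h => ?_, fun h => ?_, fun h => ?_⟩
      · exact (hadj 0 1 h01).1 h (by decide)
      · exact (hadj 0 2 h02).1 h (by decide)
      · exact (hadj 1 2 h12).1 h (by decide)
    · right
      have e1 : ∀ i : ZMod 5, i ≠ i + 1 := by decide
      have e2 : ∀ i : ZMod 5, i ≠ i + 2 := by decide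
      have e3 : ∀ i : ZMod 5, ¬ (i + 2 = i + 1 ∨ i = i + 2 + 1) := by decide
      have f1 : ∀ i : ZMod 5, ¬ G.Adj (c i) (c (i + 1)) :=
        fun i h => (hadj i (i + 1) (e1 i)).1 h (Or.inl rfl)
      have f2 : ∀ i : ZMod 5, G.Adj (c i) (c (i + 2)) :=
        fun i => (hadj i (i + 2) (e2 i)).2 (e3 i)
      exact ⟨c, hcm, hinj, f1, f2⟩
  · exfalso
    obtain ⟨i, hi⟩ := (hAH V G hcf h0.conn n h7 hodd c ⟨hinj, hadj⟩).1 u
      (fun i h => (hcm i).1 h.symm)
    exact (hcm i).2 hi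

end Pool.Agent.Helper22.SV
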